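import Pool.Agent.W560.HP.Stm

/-!
# Project HP: kernel of the differential of the contact system
-/

set_option autoImplicit false

open Finset Polynomial

namespace Pool.Agent.W397.HP

open W560.Sep W560.HP

variable {E : Type} [Field E]

lemma sum_present {B : Type} [AddCommMonoid B] {m M : ℕ} {σ : ℕ → ℕ}
    (hσ : ∀ p ≤ m, ∀ q ≤ m, σ p = σ q → p = q) (hM : ∀ i ≤ m, σ i < M) (F : ℕ → B)
    (hF : ∀ j, (∀ i ≤ m, σ i ≠ j) → F j = 0) :
    ∑ i ∈ range (m + 1), F (σ i) = ∑ j ∈ range M, F j := by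
  rw [← Finset.sum_image (f := F) (g := σ)]
  · apply Finset.sum_subset
    · intro j hj
      obtain ⟨i, hi, rfl⟩ := Finset.mem_image.1 hj
      exact Finset.mem_range.2 (hM i (by rw [Finset.mem_range] at hi; omega))
    · intro j _ hj
      apply hF
      intro i hi he
      exact hj (Finset.mem_image.2 ⟨i, Finset.mem_range.2 (by omega), he⟩)
  · intro i hi j hj h
    rw [Finset.mem_coe, Finset.mem_range] at hi hj
    exact hσ i (by omega) j (by omega) h

lemma euler_one (k : ℕ) (a b : E) :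
    C (((k : E) + 1) * a) * (X + C a) ^ k * (X + C b) + C b * (X + C a) ^ (k + 1) =
      C ((k : E) + 2) * ((X + C a) ^ (k + 1) * (X + C b)) -
        X * derivative ((X + C a) ^ (k + 1) * (X + C b)) := by
  rw [derivative_mul, derivative_X_add_C_pow, derivative_add, derivative_X, derivative_C]
  simp only [map_mul, map_add, map_natCast, map_one, map_ofNat, Nat.add_sub_cancel]
  push_cast
  ring

lemma coeff_euler (N : E) (P : E[X]) (l : ℕ) :
    (C N * P - X * derivative P).coeff l = (N - l) * P.coeff l := by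
  rw [coeff_sub, coeff_C_mul]
  rcases l with _ | l
  · simp
  · rw [coeff_X_mul, coeff_derivative]
    push_cast
    ring

lemma euler {m : ℕ} (hm : 1 ≤ m) {σ : ℕ → ℕ} {r τ : ℕ → E}
    (hσ : ∀ p ≤ m, ∀ q ≤ m, σ p = σ q → p = q) (r0 : ∀ j, (∀ i ≤ m, σ i ≠ j) → r j = 0)
    (t0 : ∀ j, (∀ i ≤ m, σ i ≠ j) → τ j = 0) (l : ℕ) :
    ∑ i ∈ range (m + 1), (h m r τ (σ i)).coeff l * r (σ i) =
      (((m : E) + 1) - l) * ∑ i ∈ range (m + 1), (g m r (σ i)).coeff l * τ (σ i) := by
  obtain ⟨k, rfl⟩ : ∃ k, m = k + 1 := ⟨m - 1, by omega⟩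
  set M : ℕ := (∑ i ∈ range (k + 1 + 1), σ i) + 1 with hM
  have hMs : ∀ i ≤ k + 1, σ i < M := by
    intro i hi
    have := Finset.single_le_sum (f := σ) (fun i _ => Nat.zero_le _)
      (Finset.mem_range.2 (show i < k + 1 + 1 by omega))
    omega
  rw [sum_present hσ hMs (fun j => (h (k + 1) r τ j).coeff l * r j) (fun j hj => by
      rw [r0 j hj, mul_zero]),
    sum_present hσ hMs (fun j => (g (k + 1) r j).coeff l * τ j) (fun j hj => by
      rw [t0 j hj, mul_zero])]
  have hMabs : r M = 0 := r0 M fun i hi he => by have := hMs i hi; omega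
  -- split `h`
  have h1 : ∀ j, (h (k + 1) r τ j).coeff l * r j =
      τ j * (C (((k : E) + 1) * r j) * (X + C (r j)) ^ k * (X + C (r (j + 1)))).coeff l +
        (if j = 0 then 0 else τ (j - 1) * (C (r j) * (X + C (r (j - 1))) ^ (k + 1)).coeff l) := by
    intro j
    unfold W560.HP.h
    rw [coeff_add, add_mul]
    congr 1
    · rw [mul_assoc (C _) _ _, mul_assoc (C _) _ _, coeff_C_mul, coeff_C_mul, Nat.add_sub_cancel]
      push_cast
      ring
    · split_ifs with hj
      · simp
      · rw [coeff_C_mul, coeff_C_mul]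
        ring
  rw [Finset.sum_congr rfl fun j _ => h1 j, Finset.sum_add_distrib]
  have h2 : ∑ j ∈ range M, (if j = 0 then 0 else
      τ (j - 1) * (C (r j) * (X + C (r (j - 1))) ^ (k + 1)).coeff l) =
      ∑ j ∈ range M, τ j * (C (r (j + 1)) * (X + C (r j)) ^ (k + 1)).coeff l := by
    have h3 := Finset.sum_range_succ' (fun j => (if j = 0 then 0 else
      τ (j - 1) * (C (r j) * (X + C (r (j - 1))) ^ (k + 1)).coeff l)) M
    have h4 := Finset.sum_range_succ (fun j => (if j = 0 then 0 else
      τ (j - 1) * (C (r j) * (X + C (r (j - 1))) ^ (k + 1)).coeff l)) M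
    rw [h3] at h4
    simp only [Nat.succ_ne_zero, if_false, Nat.add_sub_cancel, if_true, add_zero] at h4
    rw [h4, hMabs]
    simp
  rw [h2, ← Finset.sum_add_distrib, Finset.mul_sum]
  apply Finset.sum_congr rfl
  intro j _
  rw [← mul_add, ← coeff_add, euler_one, coeff_euler]
  unfold W560.HP.g
  push_cast
  ring

theorem t_EUL : S_EUL := by
  intro E _ _ m σ r τ hm hσ H e he
  have hE := euler hm hσ H.r0 H.t0
  set T : E := ∑ i ∈ range (m + 1), (g m r (σ i)).coeff m * τ (σ i) with hT
  have hT0 : T ≠ 0 := by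
    intro h0
    have := eq_zero_of_dt (m + 1) (fun l i => (g m r (σ i)).coeff l) H.p2 (fun i => τ (σ i))
      (fun l hl => by
        rcases Nat.lt_succ_iff_lt_or_eq.1 hl with h | h
        · exact H.p1 l h
        · subst h; exact h0) 0 (by omega)
    exact H.p4 0 (Nat.zero_le _) this
  set κ : E := (∑ i ∈ range (m + 1), (h m r τ (σ i)).coeff m * e (σ i)) / T with hκ
  refine ⟨κ, fun i hi => ?_⟩
  have := eq_zero_of_dt (m + 1) (fun l i => (h m r τ (σ i)).coeff l) H.p3
    (fun i => e (σ i) - κ * r (σ i)) (fun l hl => by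
      have h1 : ∑ j ∈ range (m + 1), (h m r τ (σ j)).coeff l * (e (σ j) - κ * r (σ j)) =
          ∑ j ∈ range (m + 1), (h m r τ (σ j)).coeff l * e (σ j) -
            κ * ∑ j ∈ range (m + 1), (h m r τ (σ j)).coeff l * r (σ j) := by
        rw [Finset.mul_sum, ← Finset.sum_sub_distrib]
        apply Finset.sum_congr rfl
        intro j _
        ring
      rw [h1, hE l]
      rcases Nat.lt_succ_iff_lt_or_eq.1 hl with h2 | h2
      · rw [he l h2, H.p1 l h2]; ring
      · subst h2
        rw [← hT, hκ]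
        field_simp
        ring) i (by omega)
  exact sub_eq_zero.1 this

end Pool.Agent.W397.HP
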